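import Mathlib

set_option autoImplicit false

namespace Pool.Agent.Results.MP_7875f2_co.Disproof

open SimpleGraph

/-- `H` is `F`-saturated relative to `G`. -/
def Saturated {V W : Type} (G : SimpleGraph V) (F : SimpleGraph W) (H : SimpleGraph V) : Prop :=
  H ≤ G ∧ ¬ F.IsContained H ∧ ∀ u v, G.Adj u v → ¬ H.Adj u v → F.IsContained (H ⊔ edge u v)

/-- The saturation number `sat(G, F)`. -/
noncomputable def sat {V W : Type} (G : SimpleGraph V) (F : SimpleGraph W) : ℕ :=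
  sInf {m | ∃ H, Saturated G F H ∧ H.edgeSet.ncard = m}

def r : Fin 9 ⊕ Fin 9 → Fin 9 ⊕ Fin 9 → Bool
  | Sum.inl x, Sum.inr y => x.val == 0 || (decide (5 ≤ x.val) == decide (4 ≤ y.val))
  | _, _ => false

def H : SimpleGraph (Fin 9 ⊕ Fin 9) := SimpleGraph.fromRel (fun x y => r x y = true)

instance : DecidableRel H.Adj := fun x y => by unfold H; infer_instance

def side : Fin 9 ⊕ Fin 9 → Bool := Sum.elim (fun x => decide (5 ≤ x.val)) (fun y => decide (4 ≤ y.val))

lemma side_eq : ∀ a b, H.Adj a b → a ≠ Sum.inl 0 → b ≠ Sum.inl 0 → side b = side a := by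
  decide +kernel

lemma free : ¬ (cycleGraph 14).IsContained H := by
  rintro ⟨f⟩
  obtain ⟨j, hj⟩ : ∃ j, ∀ i, i ≠ j → f i ≠ Sum.inl 0 := by
    by_cases h : ∃ j, f j = Sum.inl 0
    · obtain ⟨j, hj⟩ := h
      exact ⟨j, fun i hi e => hi (f.injective (e.trans hj.symm))⟩
    · exact ⟨0, fun i _ e => h ⟨i, e⟩⟩
  have s : ∀ i : Fin 14, i ≠ 0 → i + 1 ≠ 0 → side (f (i + 1 + j)) = side (f (i + j)) :=
    fun i h1 h2 => side_eq _ _ (f.toHom.map_adj
      ((by decide +kernel : ∀ i j : Fin 14, (cycleGraph 14).Adj (i + j) (i + 1 + j)) i j))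
      (hj _ (by simpa using h1)) (hj _ (by simpa using h2))
  have t : ∀ n (h : n + 1 < 14), side (f (⟨n + 1, h⟩ + j)) = side (f (1 + j)) := by
    intro n
    induction n with
    | zero => intro h; rfl
    | succ n ih =>
      intro h
      have e : (⟨n + 1 + 1, h⟩ : Fin 14) = ⟨n + 1, by omega⟩ + 1 :=
        Fin.ext (by rw [Fin.val_add]; simp; omega)
      rw [← ih (by omega), e]
      exact s _ (by simp [Fin.ext_iff]) (by rw [← e]; simp [Fin.ext_iff])
  have c := Finset.card_le_card_of_injOn (s := (Finset.univ : Finset (Fin 13)))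
    (t := Finset.univ.filter (fun x => side x = side (f (1 + j)))) (fun i => f (i.succ + j))
    (fun i _ => Finset.mem_coe.2 (Finset.mem_filter.2 ⟨Finset.mem_univ _, t i (by omega)⟩))
    (fun a _ b _ e => by simpa using f.injective e)
  have : ∀ b, (Finset.univ.filter (fun x => side x = b)).card ≤ 9 := by decide +kernel
  have := this (side (f (1 + j)))
  simp only [Finset.card_univ, Fintype.card_fin] at c
  omega

def lo (a m x i : ℕ) : Fin 9 := Fin.ofNat 9 (a + (x + i) % m)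

def cyc (x y : Fin 9) (i : Fin 14) : Fin 9 ⊕ Fin 9 :=
  if i.val = 6 then Sum.inl 0
  else if (i.val < 6 ↔ x.val < 5) then
    (if i.val % 2 = 0 then Sum.inl (lo 1 4 (x.val + 3) (i.val / 2))
      else Sum.inr (lo 0 4 (y.val + 2) (i.val / 2)))
  else
    (if i.val % 2 = 0 then Sum.inl (lo 5 4 (x.val + 3) (i.val / 2))
      else Sum.inr (lo 4 5 (y.val + 5) (i.val / 2)))

lemma cyc_ok : ∀ x y : Fin 9, ¬ H.Adj (Sum.inl x) (Sum.inr y) →
    (∀ i j, cyc x y i = cyc x y j → i = j) ∧ ∀ i j, (cycleGraph 14).Adj i j →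
      H.Adj (cyc x y i) (cyc x y j) ∨ (cyc x y i = Sum.inl x ∧ cyc x y j = Sum.inr y) ∨
        (cyc x y i = Sum.inr y ∧ cyc x y j = Sum.inl x) := by
  decide +kernel

lemma add_edge (x y : Fin 9) (h : ¬ H.Adj (Sum.inl x) (Sum.inr y)) :
    (cycleGraph 14).IsContained (H ⊔ edge (Sum.inl x) (Sum.inr y)) := by
  obtain ⟨h1, h2⟩ := cyc_ok x y h
  refine ⟨⟨⟨cyc x y, fun {i j} hij => ?_⟩, fun i j e => h1 i j e⟩⟩
  rcases h2 i j hij with a | ⟨a, b⟩ | ⟨a, b⟩
  · exact Or.inl a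
  · rw [a, b]; simp [edge_adj]
  · rw [a, b]; simp [edge_adj]

theorem result : ∃ l n₁ n₂ : ℕ, 4 ≤ l ∧ l + 2 ≤ n₁ ∧ l + 2 ≤ n₂ ∧
    (∃ H, Saturated (completeBipartiteGraph (Fin n₁) (Fin n₂)) (cycleGraph (2 * l)) H) ∧
    (sat (completeBipartiteGraph (Fin n₁) (Fin n₂)) (cycleGraph (2 * l)) : ℤ) <
      n₁ + n₂ + l ^ 2 - 3 * l + 1 := by
  have hs : Saturated (completeBipartiteGraph (Fin 9) (Fin 9)) (cycleGraph (2 * 7)) H := by
    refine ⟨?_, free, ?_⟩
    · rintro (x | x) (y | y) h <;> simp_all [H, r]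
    · rintro (x | x) (y | y) h1 h2
      · simp at h1
      · exact add_edge x y h2
      · rw [edge_comm]; exact add_edge y x (fun h => h2 h.symm)
      · simp at h1
  refine ⟨7, 9, 9, by norm_num, le_rfl, le_rfl, ⟨H, hs⟩, ?_⟩
  have : sat (completeBipartiteGraph (Fin 9) (Fin 9)) (cycleGraph (2 * 7)) ≤ 45 := by
    refine Nat.sInf_le ⟨H, hs, ?_⟩
    rw [← SimpleGraph.coe_edgeFinset, Set.ncard_coe_finset]
    have := H.sum_degrees_eq_twice_card_edges
    have h2 : ∑ v, H.degree v = 90 := by decide +kernel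
    omega
  generalize sat _ _ = s at *
  push_cast
  omega

end Pool.Agent.Results.MP_7875f2_co.Disproof
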